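import Pool.Agent.P.MP_e7c2f2_al.Hedge.Main

/-! Every recursively enumerable set reduces to the finite basis property of finite J-trivial
semigroups with commuting idempotents. -/

namespace Pool.Agent.Results.MP_e7c2f2_al.JTrivialHard

open Pool.Agent.P.MP_e7c2f2_al Pool.Agent.P.MP_e7c2f2_al.Hedge

theorem not_finBased {S : Type} [Semigroup S] (h : InfRank S) : ¬ FinBased S := by
  rintro ⟨B, h1, h2⟩
  obtain ⟨G, _, -, h3, u, v, h4, h5⟩ :=
    h (B.sup (fun p => (toL p.1).sum + (toL p.2).sum) + 1)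
  refine h5 (h2 G (fun p hp => ?_) u v h4)
  have := Finset.le_sup (f := fun p : FreeSemigroup ℕ × FreeSemigroup ℕ =>
    (toL p.1).sum + (toL p.2).sum) hp
  refine h3 _ _ (inVars_iff.mpr fun x hx => ?_) (inVars_iff.mpr fun x hx => ?_) (h1 p hp)
  · have := List.single_le_sum (by simp) x hx
    omega
  · have := List.single_le_sum (by simp) x hx
    omega

theorem result (p : ℕ → Prop) (hp : REPred p) : ∃ f : ℕ → List (List ℕ), Primrec f ∧
    ∀ n, ∃ (S : Type) (_ : Semigroup S), Nonempty S ∧ Tabulates (f n) S ∧ JTrivial S ∧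
      IdemComm S ∧ (FinBased S ↔ p n) ∧ (¬ FinBased S → InfRank S) := by
  obtain ⟨f, hf, h⟩ := hard p hp
  refine ⟨f, hf, fun n => ?_⟩
  obtain ⟨S, _, h1, h2, h3, h4, h5, h6⟩ := h n
  exact ⟨S, _, h1, h2, h3, h4, ⟨fun hF => by_contra fun hn => not_finBased (h6 hn) hF, h5⟩,
    fun hF => h6 fun hn => hF (h5 hn)⟩

end Pool.Agent.Results.MP_e7c2f2_al.JTrivialHard
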